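import Pool.Agent.helper25.PL.SpecA
import Pool.Agent.helper65.PM.PPO

/-!
# pl: block A, row APO: the power saving for one critical point (helper75; adapted from helper65 PM/PPO)
-/

set_option autoImplicit false

open Complex Metric Set Filter Topology MeasureTheory
open Pool.Agent.helper98.ILF
open WP (it)
open HY (UD T S hd UN RM)
open PM

noncomputable section

namespace PL

/-- the times at which `c` is not very near. -/
theorem APO_two (hAPS : APS_stmt) (hPSA : PSA_stmt) (hPVT : PVT_stmt) (f : Polynomial ℂ) (R δ ε₀ d₀ : ℝ) (k₀ : ℕ)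
    (hST : ST f R δ ε₀ d₀ k₀) (K κ δL cL b₀ δ₁ δ₂ : ℝ) (hPRM : PRM f R K κ δL cL b₀ δ₁ δ₂) (ε₄ : ℝ) (hε₄ : 0 < ε₄) :
    ∃ (C θ : ℝ) (E : ℕ), 0 < C ∧ 1 / 2 ≤ θ ∧ θ < 1 ∧ ∀ (k t : ℕ) (p : ℂ), SQ f R δL cL b₀ k t p →
      ∀ (b : ℂ), ∀ c ∈ CP f, c ∈ JJ f → ∀ g s : ℝ, 0 < g → g ≤ 1 → 0 < s → s ≤ 1 →
      ((((Finset.range t).filter (fun i => (g ≤ 1 - pd (VC f R (k + t - i) (it f i p)) (it f i p) c ∧
        s ≤ 1 - pd (VC f R k b) b (it f (t - i) c)) ∧ ε₄ ≤ pd (VC f R k (it f i p)) (it f i p) c)).card : ℕ) : ℝ) ≤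
        C * g ^ (-θ) * (1 / s) ^ E := by
  obtain ⟨Cs, hCs, hS⟩ := hAPS f R δ ε₀ d₀ k₀ hST K κ δL cL b₀ δ₁ δ₂ hPRM ε₄ hε₄
  obtain ⟨Ca, e, hCa, he, hA⟩ := hPSA
  obtain ⟨Cv, hCv, hV⟩ := hPVT f R δ ε₀ d₀ k₀ hST
  have he0 : (1 : ℝ) ≤ e := by exact_mod_cast he
  set θ₁ : ℝ := 1 / (6 * e) with hθ₁
  have hθ₁pos : 0 < θ₁ := by rw [hθ₁]; positivity
  have hθ₁le : θ₁ ≤ 1 / 6 := by
    rw [hθ₁]
    apply div_le_div_of_nonneg_left (by norm_num) (by norm_num) (by linarith)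
  set m₀ : ℝ := min 1 (1 / Ca) with hm₀
  have hm₀pos : 0 < m₀ := by
    rw [hm₀]; exact lt_min one_pos (by positivity)
  refine ⟨1 + 8 * Cs * (1 + 2 / θ₁) + Cv / m₀ ^ 3, 1 - θ₁ / 2, 3, by positivity, by linarith, by linarith, ?_⟩
  intro k t p hSQ b c hcP hcJ g s hg hg1 hs hs1
  have hp : p ∈ JJ f := hSQ.mem
  set J : Finset ℕ := (Finset.range t).filter
    (fun i => (g ≤ 1 - pd (VC f R (k + t - i) (it f i p)) (it f i p) c ∧ s ≤ 1 - pd (VC f R k b) b (it f (t - i) c)) ∧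
      ε₄ ≤ pd (VC f R k (it f i p)) (it f i p) c) with hJ
  have hnum := PPO_num Cs Cv m₀ θ₁ g s hCs hCv hm₀pos hθ₁pos hθ₁le hg hg1 hs hs1
  rcases Finset.eq_empty_or_nonempty J with hJe | hJne
  · rw [hJe]
    simp only [Finset.card_empty, Nat.cast_zero]
    positivity
  set T' : ℕ := J.min' hJne with hT'
  have hT'mem : T' ∈ J := Finset.min'_mem _ _
  have hT'J : T' < t ∧ g ≤ 1 - pd (VC f R (k + t - T') (it f T' p)) (it f T' p) c ∧ s ≤ 1 - pd (VC f R k b) b (it f (t - T') c) ∧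
      ε₄ ≤ pd (VC f R k (it f T' p)) (it f T' p) c := by
    have := hT'mem
    rw [hJ, Finset.mem_filter, Finset.mem_range] at this
    exact ⟨this.1, this.2.1.1, this.2.1.2, this.2.2⟩
  have hgp : 0 < g ^ (1 - θ₁) := Real.rpow_pos_of_pos hg _
  have hgp1 : g ^ (1 - θ₁) ≤ 1 := Real.rpow_le_one hg.le hg1 (by linarith)
  set σ : ℝ := s / 8 * g ^ (1 - θ₁) with hσ
  have hσpos : 0 < σ := by rw [hσ]; positivity
  have h8σ : 8 * σ ≤ s := by
    rw [hσ]
    nlinarith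
  have hσ1 : σ ≤ 1 := by linarith
  -- members of J other than T'
  have hmem : ∀ T ∈ J.erase T', T' < T ∧ T < t ∧ s ≤ 1 - pd (VC f R k b) b (it f (t - T) c) := by
    intro T hT
    have h1 := Finset.mem_of_mem_erase hT
    have h2 := Finset.ne_of_mem_erase hT
    have h3 : T' ≤ T := Finset.min'_le _ _ h1
    have h4 := h1
    rw [hJ, Finset.mem_filter, Finset.mem_range] at h4
    exact ⟨lt_of_le_of_ne h3 (Ne.symm h2), h4.1, h4.2.1.2⟩
  set A : Finset ℕ := (J.erase T').filter (fun T => σ ≤ 1 - pd (VC f R k b) b (it f (T' + (t - T)) p)) with hAdef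
  set B : Finset ℕ := (J.erase T').filter (fun T => ¬ σ ≤ 1 - pd (VC f R k b) b (it f (T' + (t - T)) p)) with hBdef
  have hcardAB : A.card + B.card = (J.erase T').card := by
    rw [hAdef, hBdef]
    exact Finset.card_filter_add_card_filter_not (s := J.erase T')
      (fun T => σ ≤ 1 - pd (VC f R k b) b (it f (T' + (t - T)) p))
  have hcardJ : J.card = (J.erase T').card + 1 := by
    rw [Finset.card_erase_of_mem hT'mem]
    have : 0 < J.card := Finset.card_pos.mpr hJne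
    omega
  -- count of A
  have hAc : (A.card : ℝ) ≤ Cs / σ * (1 + Real.log (1 / g)) := by
    refine le_trans ?_ (hS k t p hSQ b c T' g σ hg hg1 hσpos hσ1 hT'J.1 hT'J.2.1 hT'J.2.2.2)
    have : A.card ≤ ((Finset.range t).filter (fun i => T' < i ∧ σ ≤ 1 - pd (VC f R k b) b (it f i p))).card := by
      apply Finset.card_le_card_of_injOn (fun T => T' + (t - T))
      · intro T hT
        have hT1 : T ∈ A := hT
        rw [hAdef, Finset.mem_filter] at hT1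
        obtain ⟨h1, h2, h3⟩ := hmem T hT1.1
        show T' + (t - T) ∈ ((Finset.range t).filter (fun i => T' < i ∧ σ ≤ 1 - pd (VC f R k b) b (it f i p)))
        rw [Finset.mem_filter, Finset.mem_range]
        refine ⟨by omega, by omega, hT1.2⟩
      · intro T hT U hU hTU
        have hT1 : T ∈ A := hT
        have hU1 : U ∈ A := hU
        rw [hAdef, Finset.mem_filter] at hT1 hU1
        obtain ⟨h1, h2, h3⟩ := hmem T hT1.1
        obtain ⟨h1', h2', h3'⟩ := hmem U hU1.1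
        have hTU' : T' + (t - T) = T' + (t - U) := hTU
        omega
    exact_mod_cast this
  -- count of B
  set w : ℝ := m₀ * g ^ (1 / 6 : ℝ) with hw
  have hg6 : 0 < g ^ (1 / 6 : ℝ) := Real.rpow_pos_of_pos hg _
  have hg61 : g ^ (1 / 6 : ℝ) ≤ 1 := Real.rpow_le_one hg.le hg1 (by norm_num)
  have hwpos : 0 < w := by rw [hw]; positivity
  have hm₀1 : m₀ ≤ 1 := min_le_left _ _
  have hw1 : w ≤ 1 := by
    rw [hw]
    nlinarith
  have hratio : g * s / (4 * σ) = 2 * g ^ θ₁ := by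
    have h1 : g ^ (1 - θ₁) = g / g ^ θ₁ := by
      rw [Real.rpow_sub hg, Real.rpow_one]
    have h2 : g ^ θ₁ ≠ 0 := (Real.rpow_pos_of_pos hg _).ne'
    rw [hσ, h1]
    field_simp
    ring
  have hpow : g ^ (1 / 6 : ℝ) ≤ (g * s / (4 * σ)) ^ e := by
    rw [hratio, mul_pow]
    have h1 : (g ^ θ₁) ^ e = g ^ (1 / 6 : ℝ) := by
      rw [← Real.rpow_natCast, ← Real.rpow_mul hg.le]
      congr 1
      rw [hθ₁]
      field_simp
    rw [h1]
    have h2 : (1 : ℝ) ≤ 2 ^ e := one_le_pow₀ (by norm_num)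
    nlinarith
  have hBc : (B.card : ℝ) ≤ Cv / (w * s) ^ 3 := by
    have hinj : B.card = (B.image (fun T => t - T)).card := by
      rw [Finset.card_image_of_injOn]
      intro T hT U hU hTU
      have hT1 : T ∈ B := hT
      have hU1 : U ∈ B := hU
      rw [hBdef, Finset.mem_filter] at hT1 hU1
      obtain ⟨h1, h2, h3⟩ := hmem T hT1.1
      obtain ⟨h1', h2', h3'⟩ := hmem U hU1.1
      have hTU' : t - T = t - U := hTU
      omega
    rw [hinj]
    apply hV k (t - T') c b w s (B.image (fun T => t - T)) hcJ hwpos hw1 hs hs1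
    intro u hu
    rw [Finset.mem_image] at hu
    obtain ⟨T, hT1, rfl⟩ := hu
    rw [hBdef, Finset.mem_filter] at hT1
    obtain ⟨h1, h2, h3⟩ := hmem T hT1.1
    have hlt : 1 - pd (VC f R k b) b (it f (T' + (t - T)) p) ≤ σ := (not_le.mp hT1.2).le
    have hA' := hA f R δ ε₀ d₀ k₀ k p b c t hST hp T' T g s σ h1 h2 hg hs hσpos h8σ hT'J.2.1 h3 hlt
    refine ⟨by omega, ?_, h3⟩
    have hcr : 0 ≤ cr (VC f R k (it f (t - T) c)) (it f (t - T) c) := norm_nonneg _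
    have h5 : m₀ ≤ 1 / Ca := min_le_right _ _
    calc w * cr (VC f R k (it f (t - T) c)) (it f (t - T) c)
        = m₀ * (g ^ (1 / 6 : ℝ) * cr (VC f R k (it f (t - T) c)) (it f (t - T) c)) := by rw [hw]; ring
      _ ≤ 1 / Ca * (g ^ (1 / 6 : ℝ) * cr (VC f R k (it f (t - T) c)) (it f (t - T) c)) :=
          mul_le_mul_of_nonneg_right h5 (mul_nonneg hg6.le hcr)
      _ ≤ 1 / Ca * ((g * s / (4 * σ)) ^ e * cr (VC f R k (it f (t - T) c)) (it f (t - T) c)) := by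
          apply mul_le_mul_of_nonneg_left (mul_le_mul_of_nonneg_right hpow hcr)
          positivity
      _ ≤ 1 / Ca * (Ca * cr (VC f R (k + (t - T') - (t - T)) (it f (t - T) c)) (it f (t - T) c)) := by
          apply mul_le_mul_of_nonneg_left hA'
          positivity
      _ = cr (VC f R (k + (t - T') - (t - T)) (it f (t - T) c)) (it f (t - T) c) := by
          field_simp
  have hJc : (J.card : ℝ) = (A.card : ℝ) + B.card + 1 := by
    rw [hcardJ, ← hcardAB]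
    push_cast
    ring
  rw [hJc]
  calc (A.card : ℝ) + B.card + 1 ≤ Cs / σ * (1 + Real.log (1 / g)) + Cv / (w * s) ^ 3 + 1 := by linarith
    _ = 1 + Cs / (s / 8 * g ^ (1 - θ₁)) * (1 + Real.log (1 / g)) + Cv / (m₀ * g ^ (1 / 6 : ℝ) * s) ^ 3 := by
        rw [hσ, hw]; ring
    _ ≤ _ := hnum

/-- the power saving for one critical point. -/
theorem APO (hAPS : APS_stmt) (hAJB : AJB_stmt) (hPSA : PSA_stmt) (hPVT : PVT_stmt) : APO_stmt := by
  intro f R δ e₀ d₀ k₀ hST K κ δL cL b₀ δ₁ δ₂ hPRM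
  obtain ⟨η, hη, hJ1⟩ := hAJB f R δ e₀ d₀ k₀ hST K κ δL cL b₀ δ₁ δ₂ hPRM
  refine ⟨η, hη, ?_⟩
  intro ε hε
  obtain ⟨ε₄, C₁, hε₄, hC₁, hJ1⟩ := hJ1 ε hε
  obtain ⟨C₂, θ, E, hC₂, hθ0, hθ1, hJ2⟩ := APO_two hAPS hPSA hPVT f R δ e₀ d₀ k₀ hST K κ δL cL b₀ δ₁ δ₂ hPRM ε₄ hε₄
  refine ⟨C₁ * (1 + 1 / θ) + C₂, θ, E, by positivity, by linarith, hθ1, ?_⟩
  intro k t p hSQ hLQ b c hcP hcJ g s hg hg1 hs hs1
  have h1 := hJ1 k t p hSQ hLQ c hcP g hg hg1
  have h2 := hJ2 k t p hSQ b c hcP hcJ g s hg hg1 hs hs1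
  have hcard : ((((Finset.range t).filter (fun i => g ≤ 1 - pd (VC f R (k + t - i) (it f i p)) (it f i p) c ∧
      s ≤ 1 - pd (VC f R k b) b (it f (t - i) c))).card : ℕ) : ℝ) ≤
      ((((Finset.range t).filter (fun T => g ≤ 1 - pd (VC f R (k + t - T) (it f T p)) (it f T p) c ∧
        pd (VC f R k (it f T p)) (it f T p) c < ε₄)).card : ℕ) : ℝ) +
      ((((Finset.range t).filter (fun i => (g ≤ 1 - pd (VC f R (k + t - i) (it f i p)) (it f i p) c ∧
        s ≤ 1 - pd (VC f R k b) b (it f (t - i) c)) ∧ ε₄ ≤ pd (VC f R k (it f i p)) (it f i p) c)).card : ℕ) : ℝ) := by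
    rw [← Nat.cast_add, Nat.cast_le]
    refine le_trans (Finset.card_le_card ?_) (Finset.card_union_le _ _)
    intro i hi
    rw [Finset.mem_filter] at hi
    rw [Finset.mem_union, Finset.mem_filter, Finset.mem_filter]
    rcases lt_or_ge (pd (VC f R k (it f i p)) (it f i p) c) ε₄ with h | h
    · exact Or.inl ⟨hi.1, hi.2.1, h⟩
    · exact Or.inr ⟨hi.1, hi.2, h⟩
  have hs3 : 1 ≤ (1 / s) := by
    rw [le_div_iff₀ hs]; linarith
  have hs3' : 1 ≤ (1 / s) ^ E := one_le_pow₀ hs3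
  have hθpos : 0 < θ := by linarith
  have hgθ : 1 ≤ g ^ (-θ) := by
    apply Real.one_le_rpow_of_pos_of_le_one_of_nonpos hg hg1
    linarith
  have hlog : 1 + Real.log (1 / g) ≤ (1 + 1 / θ) * g ^ (-θ) := by
    have hl : Real.log (1 / g) ≤ (1 / g) ^ θ / θ := Real.log_le_rpow_div (by positivity) hθpos
    have hl0 : (1 / g) ^ θ = g ^ (-θ) := by
      rw [one_div, Real.inv_rpow hg.le, Real.rpow_neg hg.le]
    rw [hl0] at hl
    have : g ^ (-θ) / θ = 1 / θ * g ^ (-θ) := by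
      field_simp
    rw [this] at hl
    linarith
  have h3 : C₁ * (1 + Real.log (1 / g)) ≤ C₁ * (1 + 1 / θ) * g ^ (-θ) * (1 / s) ^ E := by
    calc C₁ * (1 + Real.log (1 / g)) ≤ C₁ * ((1 + 1 / θ) * g ^ (-θ)) :=
          mul_le_mul_of_nonneg_left hlog hC₁.le
      _ = C₁ * (1 + 1 / θ) * g ^ (-θ) * 1 := by ring
      _ ≤ C₁ * (1 + 1 / θ) * g ^ (-θ) * (1 / s) ^ E := by
          apply mul_le_mul_of_nonneg_left hs3'
          positivity
  refine hcard.trans ((add_le_add (h1.trans h3) h2).trans (le_of_eq ?_))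
  ring

end PL

end
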